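import Pool.Agent.Lib.helper13.KAPI

namespace Pool.Agent.Results.MP_018646_lc.Q2No

open Finset Filter Classical MeasureTheory Pool.Agent.Lib.PR Pool.Agent.Lib.KAPI
  Pool.Agent.H.MP_7c40ec_lc

attribute [local irreducible] Primrec Computable

theorem counting {K : Str → ℕ} (hK : Pref K) {e : ℕ → Str} (he : Computable e) :
    ∃ c, ∀ n j (F : Finset Str), (∀ x ∈ F, x.length = n ∧ K x ≤ j) → #F * 2 ^ K (e n) ≤ 2 ^ (j + c) := by
  let S : ℕ → ℕ → Prop := fun n l => ∃ w : ℕ × List Str, (w.2.Nodup ∧ 2 ^ (w.1 + 1) ≤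
    2 ^ l * w.2.length) ∧ ∀ y ∈ w.2, y.length = n ∧ K y ≤ w.1
  have s0 : REPred fun p : ℕ × ℕ => S p.1 p.2 := by
    have a := re_and (re_prim (p := fun p : ((ℕ × ℕ) × ℕ × List Str) × Str => p.2.length = p.1.1.1)
      (by fun_prop)) (re_cmp hK.re (fun p => (p.2, p.1.2.1)) (by fun_prop))
    exact re_exists (R := fun (p : ℕ × ℕ) (w : ℕ × List Str) => (w.2.Nodup ∧ 2 ^ (w.1 + 1) ≤
      2 ^ p.2 * w.2.length) ∧ ∀ y ∈ w.2, y.length = p.1 ∧ K y ≤ w.1) (re_and (re_prim (by fun_prop))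
      (re_ball (R := fun (p : (ℕ × ℕ) × ℕ × List Str) y => y.length = p.1.1 ∧ K y ≤ p.2.1) a
        (by fun_prop)))
  have s1 : ∀ n l, S n l → 2 * (1 / 2 : ℝ) ^ l ≤ ∑ x ∈ B n, (1 / 2) ^ K x := by
    rintro n l ⟨⟨j, L⟩, ⟨a1, a2⟩, a3⟩
    refine le_trans ?_ (sum_le_sum_of_subset_of_nonneg (s := L.toFinset) (fun x hx => mem_B.2
      (a3 x (List.mem_toFinset.1 hx)).1) fun _ _ _ => by positivity)
    refine le_trans ?_ (card_nsmul_le_sum _ _ ((1 / 2) ^ j) fun x hx => pow_le_pow_of_le_one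
      (by norm_num) (by norm_num) (a3 x (List.mem_toFinset.1 hx)).2)
    rw [List.toFinset_card_of_nodup a1, nsmul_eq_mul, one_div_pow, one_div_pow, mul_one_div,
      mul_one_div, div_le_div_iff₀ (by positivity) (by positivity), ← pow_succ', mul_comm]
    exact_mod_cast a2
  obtain ⟨c, hc⟩ := hK.code (fun z l => ∃ n, z = e n ∧ S n l) (re_exists (re_and (re_eq (by fun_prop)
    (by fun_prop)) (re_cmp s0 (fun p : (Str × ℕ) × ℕ => (p.2, p.1.2)) (by fun_prop)))) fun F hF => by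
    choose! n a1 a2 using hF
    rw [← sum_fiberwise_of_maps_to (g := n) (t := F.image n) fun p => mem_image_of_mem _]
    refine le_trans (sum_le_sum fun m hm => ?_) ((sum_biUnion (t := B) fun a _ b _ h =>
      disjoint_left.2 fun x h1 h2 => h ((mem_B.1 h1).symm.trans (mem_B.1 h2))).symm.trans_le
        (hK.kraft _))
    obtain ⟨p, b0, b2⟩ := exists_min_image {p ∈ F | n p = m} Prod.snd (by
      simpa [filter_nonempty_iff] using hm)
    obtain ⟨b1, rfl⟩ := mem_filter.1 b0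
    refine le_trans (wsum _ _ (fun q => q.2 - p.2) _ (by positivity) fun i => ?_) (s1 _ _ (a2 p b1))
    refine (sum_le_sum_of_subset_of_nonneg (t := {(p.1, p.2 + i)}) (fun q hq' => ?_)
      fun _ _ _ => by positivity).trans (le_of_eq ?_)
    · obtain ⟨hq, rfl⟩ := mem_filter.1 hq'
      rw [Nat.add_sub_cancel' (b2 q hq), a1 p b1, ← (mem_filter.1 hq).2, ← a1 q (mem_filter.1 hq).1]
      simp
    · simp only [sum_singleton, pow_add]
      ring
  refine ⟨c + 2, fun n j F hF => ?_⟩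
  rcases F.eq_empty_or_nonempty with rfl | h0
  · simp
  have h : ∃ l, 2 ^ (j + 1) ≤ 2 ^ l * #F := ⟨_, Nat.le_mul_of_pos_right _ h0.card_pos⟩
  have h1 : ∀ l, 2 ^ (j + 1) ≤ 2 ^ l * #F → S n l := fun l h =>
    ⟨(j, F.toList), ⟨nodup_toList _, by rwa [length_toList]⟩, fun y hy => hF y (mem_toList.1 hy)⟩
  have h2 := hc _ _ ⟨n, rfl, h1 _ (Nat.find_spec h)⟩
  rcases (Nat.find h).eq_zero_or_pos with h3 | h3
  · have := (s1 _ _ (h1 _ (Nat.find_spec h))).trans (hK.kraft _)
    norm_num [h3] at this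
  have h4 := not_le.1 (Nat.find_min h (Nat.sub_lt h3 one_pos))
  calc _ ≤ #F * 2 ^ (Nat.find h - 1 + (c + 1)) :=
        Nat.mul_le_mul_left _ (Nat.pow_le_pow_right two_pos (by omega))
    _ = 2 ^ (Nat.find h - 1) * #F * 2 ^ (c + 1) := by ring
    _ ≤ 2 ^ (j + 1) * 2 ^ (c + 1) := Nat.mul_le_mul_right _ h4.le
    _ = _ := by ring

theorem point {C K : Str → ℕ} (hC : Plain C) (hK : Pref K) {e : ℕ → Str} (he : Computable e) :
    ∃ c : ℕ, ∀ (X : ℕ → Bool) n, n + K (e n) + 2 * C (pre X (Nat.pair n (K (e n)))) ≤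
      K (pre X n) + 2 * Nat.pair n (K (e n)) + c := by
  obtain ⟨c0, h0⟩ := counting hK he
  obtain ⟨c, hc⟩ := hC.code (fun d l y => ∃ j, (y.length + c0 = l + 2 * d ∧ (d = 0 ∨
    j + 2 * d = y.length.unpair.1 + y.length.unpair.2)) ∧ K (y.take y.length.unpair.1) ≤ j)
    (re_exists (re_and (re_prim (by fun_prop)) (re_cmp hK.re (fun p : (ℕ × ℕ × Str) × ℕ =>
      (p.1.2.2.take p.1.2.2.length.unpair.1, p.2)) (by fun_prop))))
  refine ⟨2 * (c0 + c) + 1, fun X n => ?_⟩
  obtain ⟨m, hm⟩ : ∃ m, m = Nat.pair n (K (e n)) := ⟨_, rfl⟩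
  obtain ⟨d, hd⟩ : ∃ d, d = (n + K (e n) - K (pre X n)) / 2 := ⟨_, rfl⟩
  have a0 := hm ▸ Nat.add_le_pair n (K (e n))
  have a1 : m.unpair = (n, K (e n)) := by simp [hm]
  rw [← hm]
  have := hc d (m + c0 - 2 * d) (fun F hF => ?_) (pre X m) (by
    rw [len_pre, a1, take_pre X (by omega)]
    dsimp only
    by_cases h : d = 0
    exacts [⟨_, ⟨by omega, Or.inl h⟩, le_rfl⟩, ⟨n + K (e n) - 2 * d, by omega, by omega⟩])
  · omega
  have b : ∀ y ∈ F, y.length = m := fun y hy => by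
    obtain ⟨j, b, -⟩ := hF y hy
    omega
  by_cases h : d = 0
  · exact (card_le_card fun y hy => mem_B.2 (b y hy)).trans ((card_B m).trans_le
      (Nat.pow_le_pow_right two_pos (by omega)))
  have b1 := h0 n (n + K (e n) - 2 * d) (F.image (List.take n)) (forall_mem_image.2 fun y hy => by
    obtain ⟨j, b1, b2⟩ := hF y hy
    rw [b y hy, a1] at b1 b2
    dsimp only at b1 b2
    exact ⟨by rw [List.length_take, b y hy]; omega, by omega⟩)
  have b2 := card_le_mul_card_image (f := List.take n) F (2 ^ (m - n)) fun x _ => by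
    rw [← card_B, ← card_image_of_injOn (f := List.drop n) fun y hy z hz h => by
      rw [← y.take_append_drop n, ← z.take_append_drop n, h, (mem_filter.1 hy).2, (mem_filter.1 hz).2]]
    refine card_le_card (image_subset_iff.2 fun y hy => mem_B.2 ?_)
    rw [List.length_drop, b y (mem_filter.1 hy).1]
  refine Nat.le_of_mul_le_mul_right ((Nat.mul_le_mul_right _ b2).trans ?_) (Nat.two_pow_pos (K (e n)))
  rw [mul_assoc]
  refine (Nat.mul_le_mul_left _ b1).trans (le_of_eq ?_)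
  rw [← pow_add, ← pow_add]
  congr 1
  omega

theorem result (U V : Str →. Str) (hU : Opt U) (hV : OptPF V) (e : ℕ → Str) (he : Computable e)
    (_hi : Function.Injective e) (μ : Measure (ℕ → Bool)) [IsProbabilityMeasure μ]
    (h : ∃ c : ℝ, ∀ n : ℕ, n - c ≤ avg μ (cx U) n) :
    ∃ c : ℝ, ∀ n : ℕ, n + cx V (e n) - c ≤ avg μ (cx V) n := by
  obtain ⟨c, hc⟩ := h
  obtain ⟨c0, h⟩ := point hU.plain hV.pref he
  refine ⟨c0 + 2 * c, fun n => ?_⟩
  obtain ⟨m, hm⟩ : ∃ m, m = Nat.pair n (cx V (e n)) := ⟨_, rfl⟩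
  have := integral_mono (f := fun X => (n + cx V (e n) : ℝ) + 2 * cx U (pre X m))
    (g := fun X => (cx V (pre X n) : ℝ) + (2 * m + c0))
    ((integrable_const _).add ((int_avg μ _ m).1.const_mul 2))
    ((int_avg μ _ n).1.add (integrable_const _)) fun X => by
      have := h X n
      rw [← hm, add_assoc (cx V _)] at this
      beta_reduce
      exact_mod_cast this
  rw [integral_add (integrable_const _) ((int_avg μ _ m).1.const_mul 2), integral_add
    (int_avg μ _ n).1 (integrable_const _), integral_const_mul, (int_avg μ _ n).2,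
    (int_avg μ _ m).2] at this
  simp only [integral_const, probReal_univ, one_smul] at this
  linarith [hc m]

end Pool.Agent.Results.MP_018646_lc.Q2No
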